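import Pool.Agent.H415.NorK

/-! Normal subgroups of `D*` radical over a proper division subring, and additive commutators. -/

set_option autoImplicit false

namespace Pool.Agent.Results.MP_b4cb8e_al.NormalAdditive

universe u v

/-- Let `K` be a proper division subring of `D` and `N` a normal subgroup of `D*` radical over `K`.
If `E` is a division ring mapped into `D` by `φ` and an element `v` of `E*` with `φ v ∈ N` fails to
commute with some element of `E`, then every element of `E` is a sum of additive commutators
`a b - b a` of elements of `E`. (With `E = D`: `N` is central unless `D = [D, D]`.) -/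
theorem result {D : Type u} [DivisionRing D] (K : Subfield D) (hK : K ≠ ⊤)
    (N : Subgroup Dˣ) (hnor : N.Normal)
    (hrad : ∀ x ∈ N, ∃ n : ℕ, 1 ≤ n ∧ (x : D) ^ n ∈ K)
    {E : Type v} [DivisionRing E] (φ : E →+* D)
    (v : Eˣ) (hv : Units.map (φ : E →* D) v ∈ N) (x : E) (hvx : (v : E) * x ≠ x * v) :
    AddSubgroup.closure {c : E | ∃ a b : E, c = a * b - b * a} = ⊤ := by
  rw [eq_top_iff]
  intro d _
  exact Pool.Agent.H415.main_norK K hK N hnor hrad φ v hv x hvx d

end Pool.Agent.Results.MP_b4cb8e_al.NormalAdditive
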